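import Pool.Agent.Q157.FC.Star

/-!
A graph on which 2-colour flag coloring is the auxiliary game.
-/

namespace Pool.Agent.Q157.FC

open Finset

variable {α : Type} (N : α → Finset ℕ) (I : Finset ℕ)

/-- Adjacency between the two sides. -/
def link : Option α → Option {y // y ∈ I} → Prop
  | none, _ => True
  | some _, none => True
  | some x, some y => y.1 ∈ N x

/-- The bipartite graph: the sides are `α` and `I`, each with one more vertex which is adjacent to
all vertices of the other side. -/
def graph : SimpleGraph (Option α ⊕ Option {y // y ∈ I}) where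
  Adj v u := match v, u with
    | Sum.inl p, Sum.inr q => link N I p q
    | Sum.inr q, Sum.inl p => link N I p q
    | _, _ => False
  symm := ⟨by
    intro v u h
    cases v <;> cases u <;> exact h⟩
  loopless := ⟨by
    intro v h
    cases v <;> exact h⟩

@[simp] lemma adj_lr (p : Option α) (q : Option {y // y ∈ I}) :
    (graph N I).Adj (Sum.inl p) (Sum.inr q) ↔ link N I p q := Iff.rfl

@[simp] lemma adj_rl (p : Option α) (q : Option {y // y ∈ I}) :
    (graph N I).Adj (Sum.inr q) (Sum.inl p) ↔ link N I p q := Iff.rfl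

@[simp] lemma adj_ll (p p' : Option α) :
    ¬ (graph N I).Adj (Sum.inl p) (Sum.inl p') := fun h => h

@[simp] lemma adj_rr (q q' : Option {y // y ∈ I}) :
    ¬ (graph N I).Adj (Sum.inr q) (Sum.inr q') := fun h => h

lemma link_none_left (q : Option {y // y ∈ I}) : link N I none q := by
  cases q <;> trivial

lemma link_none_right (p : Option α) : link N I p none := by
  cases p <;> trivial

lemma adj_a (q : Option {y // y ∈ I}) : (graph N I).Adj (Sum.inl none) (Sum.inr q) :=
  link_none_left N I q

lemma adj_a' (q : Option {y // y ∈ I}) : (graph N I).Adj (Sum.inr q) (Sum.inl none) :=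
  link_none_left N I q

lemma adj_b (p : Option α) : (graph N I).Adj (Sum.inl p) (Sum.inr none) :=
  link_none_right N I p

lemma adj_b' (p : Option α) : (graph N I).Adj (Sum.inr none) (Sum.inl p) :=
  link_none_right N I p

lemma connected : (graph N I).Connected := by
  have h : ∀ v, (graph N I).Reachable (Sum.inl none) v := by
    intro v
    have h1 : (graph N I).Reachable (Sum.inl none) (Sum.inr none) :=
      SimpleGraph.Adj.reachable (link_none_left N I none)
    cases v with
    | inl p =>
      exact h1.trans (SimpleGraph.Adj.reachable (G := graph N I) (u := Sum.inr none)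
        (v := Sum.inl p) (link_none_right N I p))
    | inr q => exact SimpleGraph.Adj.reachable (link_none_left N I q)
  have : Nonempty (Option α ⊕ Option {y // y ∈ I}) := ⟨Sum.inl none⟩
  exact ⟨fun u v => (h u).symm.trans (h v)⟩

variable [Fintype α] [DecidableEq α]

set_option linter.unusedSectionVars false

/-- The colouring `χ` represents the sets `A` and `B` of the vertices which are still
components for themselves. -/
structure Rep (χ : Option α ⊕ Option {y // y ∈ I} → Bool) (A : Finset α) (B : Finset ℕ) :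
    Prop where
  hB : B ⊆ I
  ca : χ (Sum.inl none) = true
  cb : χ (Sum.inr none) = false
  cA : ∀ x ∈ A, χ (Sum.inl (some x)) = true
  cB : ∀ y : {y // y ∈ I}, y.1 ∈ B → χ (Sum.inr (some y)) = false
  nA : ∀ x ∈ A, ∀ y : {y // y ∈ I}, y.1 ∈ N x → χ (Sum.inr (some y)) = false
  nB : ∀ y : {y // y ∈ I}, y.1 ∈ B → ∀ x, y.1 ∈ N x → χ (Sum.inl (some x)) = true
  rA : ∀ x ∉ A, χ (Sum.inl (some x)) = true → ∃ y : {y // y ∈ I}, y.1 ∈ N x ∧
    χ (Sum.inr (some y)) = true
  rB : ∀ y : {y // y ∈ I}, y.1 ∉ B → χ (Sum.inr (some y)) = false → ∃ x, y.1 ∈ N x ∧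
    χ (Sum.inl (some x)) = false

variable {N I}
variable {χ : Option α ⊕ Option {y // y ∈ I} → Bool} {A : Finset α} {B : Finset ℕ}

lemma Rep.singleA (h : Rep N I χ A B) {x : α} (hx : x ∈ A) :
    ∀ u, (graph N I).Adj (Sum.inl (some x)) u → χ (Sum.inl (some x)) ≠ χ u := by
  intro u hu
  rw [h.cA x hx]
  rcases u with p | q
  · exact absurd hu (adj_ll N I _ _)
  · rcases q with _ | y
    · rw [h.cb]; simp
    · rw [h.nA x hx y hu]; simp

lemma Rep.singleB (h : Rep N I χ A B) {y : {y // y ∈ I}} (hy : y.1 ∈ B) :
    ∀ u, (graph N I).Adj (Sum.inr (some y)) u → χ (Sum.inr (some y)) ≠ χ u := by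
  intro u hu
  rw [h.cB y hy]
  rcases u with p | q
  · rcases p with _ | x
    · rw [h.ca]; simp
    · rw [h.nB y hy x hu]; simp
  · exact absurd hu (adj_rr N I _ _)

lemma Rep.recolourA (h : Rep N I χ A B) {x : α} (hx : x ∈ A) :
    ∀ w, recolour (graph N I) χ (Sum.inl (some x)) w =
      if w = Sum.inl (some x) then false else χ w := by
  intro w
  unfold recolour
  by_cases h1 : w = Sum.inl (some x)
  · rw [if_pos ((mono_single (h.singleA hx)).mpr h1), if_pos h1, h1, h.cA x hx]; rfl
  · rw [if_neg (fun h2 => h1 ((mono_single (h.singleA hx)).mp h2)), if_neg h1]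

lemma Rep.recolourB (h : Rep N I χ A B) {y : {y // y ∈ I}} (hy : y.1 ∈ B) :
    ∀ w, recolour (graph N I) χ (Sum.inr (some y)) w =
      if w = Sum.inr (some y) then true else χ w := by
  intro w
  unfold recolour
  by_cases h1 : w = Sum.inr (some y)
  · rw [if_pos ((mono_single (h.singleB hy)).mpr h1), if_pos h1, h1, h.cB y hy]; rfl
  · rw [if_neg (fun h2 => h1 ((mono_single (h.singleB hy)).mp h2)), if_neg h1]

lemma Rep.moveA (h : Rep N I χ A B) {x : α} (hx : x ∈ A) :
    Move (graph N I) χ (recolour (graph N I) χ (Sum.inl (some x))) ∧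
      Rep N I (recolour (graph N I) χ (Sum.inl (some x))) (A.erase x) (B \ N x) := by
  have hval := h.recolourA hx
  constructor
  · refine ⟨Sum.inl (some x), Sum.inr none, adj_b N I _, ?_, rfl⟩
    rw [h.cb, h.cA x hx]; simp
  · refine ⟨Finset.sdiff_subset.trans h.hB, ?_, ?_, ?_, ?_, ?_, ?_, ?_, ?_⟩
    · rw [hval, if_neg (by simp)]; exact h.ca
    · rw [hval, if_neg (by simp)]; exact h.cb
    · intro x' hx'
      rw [Finset.mem_erase] at hx'
      rw [hval, if_neg (by simpa using hx'.1)]
      exact h.cA x' hx'.2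
    · intro y hy
      rw [hval, if_neg (by simp)]
      exact h.cB y (Finset.mem_sdiff.mp hy).1
    · intro x' hx' y hy
      rw [hval, if_neg (by simp)]
      exact h.nA x' (Finset.mem_of_mem_erase hx') y hy
    · intro y hy x' hx'
      rw [Finset.mem_sdiff] at hy
      have h1 : x' ≠ x := fun h1 => hy.2 (h1 ▸ hx')
      rw [hval, if_neg (by simpa using h1)]
      exact h.nB y hy.1 x' hx'
    · intro x' hx' hc
      rw [hval] at hc
      by_cases h1 : x' = x
      · rw [if_pos (by rw [h1])] at hc
        exact absurd hc (by simp)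
      · rw [if_neg (by simpa using h1)] at hc
        obtain ⟨y, hy, hyc⟩ := h.rA x' (fun h2 => hx' (Finset.mem_erase.mpr ⟨h1, h2⟩)) hc
        refine ⟨y, hy, ?_⟩
        rw [hval, if_neg (by simp)]
        exact hyc
    · intro y hy hc
      rw [hval, if_neg (by simp)] at hc
      by_cases h1 : y.1 ∈ N x
      · exact ⟨x, h1, by rw [hval, if_pos rfl]⟩
      · have h2 : y.1 ∉ B := fun h2 => hy (Finset.mem_sdiff.mpr ⟨h2, h1⟩)
        obtain ⟨x', hx', hxc⟩ := h.rB y h2 hc
        refine ⟨x', hx', ?_⟩
        rw [hval]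
        split_ifs
        · rfl
        · exact hxc

lemma Rep.moveB (h : Rep N I χ A B) {y : {y // y ∈ I}} (hy : y.1 ∈ B) :
    Move (graph N I) χ (recolour (graph N I) χ (Sum.inr (some y))) ∧
      Rep N I (recolour (graph N I) χ (Sum.inr (some y))) (A.filter (fun x => y.1 ∉ N x))
        (B.erase y.1) := by
  have hval := h.recolourB hy
  constructor
  · refine ⟨Sum.inr (some y), Sum.inl none, adj_a' N I _, ?_, rfl⟩
    rw [h.ca, h.cB y hy]; simp
  · refine ⟨(Finset.erase_subset _ _).trans h.hB, ?_, ?_, ?_, ?_, ?_, ?_, ?_, ?_⟩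
    · rw [hval, if_neg (by simp)]; exact h.ca
    · rw [hval, if_neg (by simp)]; exact h.cb
    · intro x hx
      rw [hval, if_neg (by simp)]
      exact h.cA x (Finset.mem_filter.mp hx).1
    · intro y' hy'
      rw [Finset.mem_erase] at hy'
      have h1 : y' ≠ y := fun h1 => hy'.1 (by rw [h1])
      rw [hval, if_neg (by simpa using h1)]
      exact h.cB y' hy'.2
    · intro x hx y' hy'
      rw [Finset.mem_filter] at hx
      have h1 : y' ≠ y := fun h1 => hx.2 (h1 ▸ hy')
      rw [hval, if_neg (by simpa using h1)]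
      exact h.nA x hx.1 y' hy'
    · intro y' hy' x hx
      rw [hval, if_neg (by simp)]
      exact h.nB y' (Finset.mem_of_mem_erase hy') x hx
    · intro x hx hc
      rw [hval, if_neg (by simp)] at hc
      by_cases h1 : y.1 ∈ N x
      · exact ⟨y, h1, by rw [hval, if_pos rfl]⟩
      · have h2 : x ∉ A := fun h2 => hx (Finset.mem_filter.mpr ⟨h2, h1⟩)
        obtain ⟨y', hy', hyc⟩ := h.rA x h2 hc
        refine ⟨y', hy', ?_⟩
        rw [hval]
        split_ifs
        · rfl
        · exact hyc
    · intro y' hy' hc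
      rw [hval] at hc
      by_cases h1 : y' = y
      · rw [if_pos (by rw [h1])] at hc
        exact absurd hc (by simp)
      · rw [if_neg (by simpa using h1)] at hc
        have h2 : y'.1 ∉ B := by
          intro h2
          apply hy'
          rw [Finset.mem_erase]
          exact ⟨fun h3 => h1 (Subtype.ext h3), h2⟩
        obtain ⟨x, hx, hxc⟩ := h.rB y' h2 hc
        refine ⟨x, hx, ?_⟩
        rw [hval, if_neg (by simp)]
        exact hxc

/-- The vertices of `A`. -/
def sideA (I : Finset ℕ) (A : Finset α) : Finset (Option α ⊕ Option {y // y ∈ I}) :=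
  A.map ⟨fun x => Sum.inl (some x), fun x x' h => by simpa using h⟩

/-- The vertices of `B`. -/
def sideB (α : Type) (I : Finset ℕ) (B : Finset ℕ) : Finset (Option α ⊕ Option {y // y ∈ I}) :=
  (B.subtype (fun y => y ∈ I)).map ⟨fun y => Sum.inr (some y), fun y y' h => by simpa using h⟩

lemma mem_sideA {A : Finset α} {v : Option α ⊕ Option {y // y ∈ I}} :
    v ∈ sideA I A ↔ ∃ x ∈ A, v = Sum.inl (some x) := by
  unfold sideA
  rw [Finset.mem_map]
  constructor
  · rintro ⟨x, hx, rfl⟩
    exact ⟨x, hx, rfl⟩
  · rintro ⟨x, hx, rfl⟩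
    exact ⟨x, hx, rfl⟩

lemma mem_sideB {B : Finset ℕ} {v : Option α ⊕ Option {y // y ∈ I}} :
    v ∈ sideB α I B ↔ ∃ y : {y // y ∈ I}, y.1 ∈ B ∧ v = Sum.inr (some y) := by
  unfold sideB
  rw [Finset.mem_map]
  constructor
  · rintro ⟨y, hy, rfl⟩
    exact ⟨y, Finset.mem_subtype.mp hy, rfl⟩
  · rintro ⟨y, hy, rfl⟩
    exact ⟨y, Finset.mem_subtype.mpr hy, rfl⟩

/-- The component of `inl none`. -/
lemma Rep.mono_a (h : Rep N I χ A B) (w : Option α ⊕ Option {y // y ∈ I}) :
    Mono (graph N I) χ (Sum.inl none) w ↔ χ w = true ∧ w ∉ sideA I A := by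
  constructor
  · intro hm
    refine ⟨hm.color.trans h.ca, ?_⟩
    intro h1
    obtain ⟨x, hx, rfl⟩ := mem_sideA.mp h1
    have := (mono_single (h.singleA hx)).mp hm.symm
    simp at this
  · rintro ⟨h1, h2⟩
    have e0 : Mono (graph N I) χ (Sum.inl none) (Sum.inl none) := Relation.ReflTransGen.refl
    have hq : ∀ q, χ (Sum.inr q) = true → Mono (graph N I) χ (Sum.inl none) (Sum.inr q) := by
      intro q hq
      exact e0.step (link_none_left N I q) (h.ca.trans hq.symm)
    rcases w with p | q
    · rcases p with _ | x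
      · exact e0
      · have hx : x ∉ A := fun hx => h2 (mem_sideA.mpr ⟨x, hx, rfl⟩)
        obtain ⟨y, hy, hyc⟩ := h.rA x hx h1
        exact (hq _ hyc).step (show link N I (some x) (some y) from hy) (hyc.trans h1.symm)
    · exact hq q h1

/-- The component of `inr none`. -/
lemma Rep.mono_b (h : Rep N I χ A B) (w : Option α ⊕ Option {y // y ∈ I}) :
    Mono (graph N I) χ (Sum.inr none) w ↔ χ w = false ∧ w ∉ sideB α I B := by
  constructor
  · intro hm
    refine ⟨hm.color.trans h.cb, ?_⟩
    intro h1
    obtain ⟨y, hy, rfl⟩ := mem_sideB.mp h1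
    have := (mono_single (h.singleB hy)).mp hm.symm
    simp at this
  · rintro ⟨h1, h2⟩
    have e0 : Mono (graph N I) χ (Sum.inr none) (Sum.inr none) := Relation.ReflTransGen.refl
    have hp : ∀ p, χ (Sum.inl p) = false → Mono (graph N I) χ (Sum.inr none) (Sum.inl p) := by
      intro p hp
      exact e0.step (show (graph N I).Adj (Sum.inr none) (Sum.inl p) from link_none_right N I p)
        (h.cb.trans hp.symm)
    rcases w with p | q
    · exact hp p h1
    · rcases q with _ | y
      · exact e0
      · have hy : y.1 ∉ B := fun hy => h2 (mem_sideB.mpr ⟨y, hy, rfl⟩)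
        obtain ⟨x, hx, hxc⟩ := h.rB y hy h1
        exact (hp _ hxc).step (show link N I (some x) (some y) from hx) (hxc.trans h1.symm)

lemma Rep.recolour_a (h : Rep N I χ A B) (w : Option α ⊕ Option {y // y ∈ I}) :
    recolour (graph N I) χ (Sum.inl none) w = decide (w ∈ sideA I A) := by
  unfold recolour
  by_cases h1 : w ∈ sideA I A
  · rw [if_neg (fun h2 => ((h.mono_a w).mp h2).2 h1), decide_eq_true h1]
    obtain ⟨x, hx, rfl⟩ := mem_sideA.mp h1
    exact h.cA x hx
  · rw [decide_eq_false h1]
    by_cases h2 : χ w = true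
    · rw [if_pos ((h.mono_a w).mpr ⟨h2, h1⟩), h2]; rfl
    · rw [if_neg (fun h3 => h2 ((h.mono_a w).mp h3).1)]
      simpa using h2

lemma Rep.recolour_b (h : Rep N I χ A B) (w : Option α ⊕ Option {y // y ∈ I}) :
    recolour (graph N I) χ (Sum.inr none) w = !decide (w ∈ sideB α I B) := by
  unfold recolour
  by_cases h1 : w ∈ sideB α I B
  · rw [if_neg (fun h2 => ((h.mono_b w).mp h2).2 h1), decide_eq_true h1]
    obtain ⟨y, hy, rfl⟩ := mem_sideB.mp h1
    exact h.cB y hy
  · rw [decide_eq_false h1]
    by_cases h2 : χ w = false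
    · rw [if_pos ((h.mono_b w).mpr ⟨h2, h1⟩), h2]
    · rw [if_neg (fun h3 => h2 ((h.mono_b w).mp h3).1)]
      simpa using h2

lemma Rep.moveStarA (h : Rep N I χ A B) :
    Move (graph N I) χ (recolour (graph N I) χ (Sum.inl none)) ∧
      grundy (graph N I) (recolour (graph N I) χ (Sum.inl none)) = t A.card := by
  constructor
  · refine ⟨Sum.inl none, Sum.inr none, adj_a N I _, ?_, rfl⟩
    rw [h.ca, h.cb]; simp
  · have hval := h.recolour_a
    have hs : Star (graph N I) (recolour (graph N I) χ (Sum.inl none)) (sideA I A) true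
        (Sum.inr none) := by
      have hroot : (Sum.inr none : Option α ⊕ Option {y // y ∈ I}) ∉ sideA I A := by
        rw [mem_sideA]; simp
      have ha : (Sum.inl none : Option α ⊕ Option {y // y ∈ I}) ∉ sideA I A := by
        rw [mem_sideA]; simp
      refine ⟨hroot, ?_, ?_, ?_, ?_, ?_⟩
      · intro v hv; rw [hval, decide_eq_true hv]
      · intro v hv; rw [hval, decide_eq_false hv]; rfl
      · intro v hv u hu
        obtain ⟨x, -, rfl⟩ := mem_sideA.mp hv
        obtain ⟨x', -, rfl⟩ := mem_sideA.mp hu
        exact adj_ll N I _ _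
      · intro v hv
        obtain ⟨x, -, rfl⟩ := mem_sideA.mp hv
        exact adj_b N I _
      · intro v hv
        have e0 : Mono (graph N I) (recolour (graph N I) χ (Sum.inl none)) (Sum.inr none)
            (Sum.inr none) := Relation.ReflTransGen.refl
        have e1 : ∀ p, (Sum.inl p : Option α ⊕ Option {y // y ∈ I}) ∉ sideA I A →
            Mono (graph N I) (recolour (graph N I) χ (Sum.inl none)) (Sum.inr none)
              (Sum.inl p) := by
          intro p hp
          refine e0.step (show (graph N I).Adj (Sum.inr none) (Sum.inl p) from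
            link_none_right N I p) ?_
          rw [hval, hval, decide_eq_false hroot, decide_eq_false hp]
        rcases v with p | q
        · exact e1 p hv
        · refine (e1 none ha).step (link_none_left N I q) ?_
          rw [hval, hval, decide_eq_false ha, decide_eq_false hv]
    rw [hs.value, sideA, Finset.card_map]

lemma Rep.moveStarB (h : Rep N I χ A B) :
    Move (graph N I) χ (recolour (graph N I) χ (Sum.inr none)) ∧
      grundy (graph N I) (recolour (graph N I) χ (Sum.inr none)) = t B.card := by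
  constructor
  · refine ⟨Sum.inr none, Sum.inl none, adj_a' N I _, ?_, rfl⟩
    rw [h.ca, h.cb]; simp
  · have hval := h.recolour_b
    have hs : Star (graph N I) (recolour (graph N I) χ (Sum.inr none)) (sideB α I B) false
        (Sum.inl none) := by
      have hroot : (Sum.inl none : Option α ⊕ Option {y // y ∈ I}) ∉ sideB α I B := by
        rw [mem_sideB]; simp
      have hb : (Sum.inr none : Option α ⊕ Option {y // y ∈ I}) ∉ sideB α I B := by
        rw [mem_sideB]; simp
      refine ⟨hroot, ?_, ?_, ?_, ?_, ?_⟩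
      · intro v hv; rw [hval, decide_eq_true hv]; rfl
      · intro v hv; rw [hval, decide_eq_false hv]
      · intro v hv u hu
        obtain ⟨y, -, rfl⟩ := mem_sideB.mp hv
        obtain ⟨y', -, rfl⟩ := mem_sideB.mp hu
        exact adj_rr N I _ _
      · intro v hv
        obtain ⟨y, -, rfl⟩ := mem_sideB.mp hv
        exact adj_a' N I _
      · intro v hv
        have e0 : Mono (graph N I) (recolour (graph N I) χ (Sum.inr none)) (Sum.inl none)
            (Sum.inl none) := Relation.ReflTransGen.refl
        have e1 : ∀ q, (Sum.inr q : Option α ⊕ Option {y // y ∈ I}) ∉ sideB α I B →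
            Mono (graph N I) (recolour (graph N I) χ (Sum.inr none)) (Sum.inl none)
              (Sum.inr q) := by
          intro q hq
          refine e0.step (link_none_left N I q) ?_
          rw [hval, hval, decide_eq_false hroot, decide_eq_false hq]
        rcases v with p | q
        · refine (e1 none hb).step (show (graph N I).Adj (Sum.inr none) (Sum.inl p) from
            link_none_right N I p) ?_
          rw [hval, hval, decide_eq_false hb, decide_eq_false hv]
        · exact e1 q hv
    rw [hs.value, sideB, Finset.card_map, Finset.card_subtype,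
      Finset.filter_true_of_mem (fun y hy => h.hB hy)]

/-- Every move is one of these. -/
lemma Rep.moves (h : Rep N I χ A B) {χ' : Option α ⊕ Option {y // y ∈ I} → Bool}
    (hm : Move (graph N I) χ χ') :
    (∃ x ∈ A, χ' = recolour (graph N I) χ (Sum.inl (some x))) ∨
    (∃ y : {y // y ∈ I}, y.1 ∈ B ∧ χ' = recolour (graph N I) χ (Sum.inr (some y))) ∨
    χ' = recolour (graph N I) χ (Sum.inl none) ∨ χ' = recolour (graph N I) χ (Sum.inr none) := by
  obtain ⟨v, u, -, -, rfl⟩ := hm
  by_cases h1 : v ∈ sideA I A
  · obtain ⟨x, hx, rfl⟩ := mem_sideA.mp h1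
    exact Or.inl ⟨x, hx, rfl⟩
  by_cases h2 : v ∈ sideB α I B
  · obtain ⟨y, hy, rfl⟩ := mem_sideB.mp h2
    exact Or.inr (Or.inl ⟨y, hy, rfl⟩)
  right; right
  by_cases h3 : χ v = true
  · exact Or.inl (recolour_congr ((h.mono_a v).mpr ⟨h3, h1⟩)).symm
  · exact Or.inr (recolour_congr ((h.mono_b v).mpr ⟨by simpa using h3, h2⟩)).symm

/-- The Grundy value of the position is the value of the auxiliary game. -/
theorem Rep.value {χ : Option α ⊕ Option {y // y ∈ I} → Bool} {A : Finset α} {B : Finset ℕ}
    (h : Rep N I χ A B) : grundy (graph N I) χ = val (A.val.map N) B := by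
  induction hn : A.card + B.card using Nat.strong_induction_on generalizing χ A B with
  | _ n IH =>
  have hcard : Multiset.card (A.val.map N) = A.card := by rw [Multiset.card_map]; rfl
  have hA : ∀ x ∈ A, grundy (graph N I) (recolour (graph N I) χ (Sum.inl (some x))) =
      val ((A.val.map N).erase (N x)) (B \ N x) := by
    intro x hx
    have h1 := Finset.card_erase_add_one hx
    have h2 := Finset.card_le_card (Finset.sdiff_subset : B \ N x ⊆ B)
    rw [IH _ (by omega) (h.moveA hx).2 rfl]
    congr 1
    have h3 : A.val = x ::ₘ (A.erase x).val := by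
      rw [Finset.erase_val, Multiset.cons_erase hx]
    conv_rhs => rw [h3]
    rw [Multiset.map_cons, Multiset.erase_cons_head]
  have hB : ∀ y : {y // y ∈ I}, y.1 ∈ B →
      grundy (graph N I) (recolour (graph N I) χ (Sum.inr (some y))) =
      val ((A.val.map N).filter (fun S => y.1 ∉ S)) (B.erase y.1) := by
    intro y hy
    have h1 := Finset.card_erase_add_one hy
    have h2 := Finset.card_le_card (Finset.filter_subset (fun x => y.1 ∉ N x) A)
    rw [IH _ (by omega) (h.moveB hy).2 rfl]
    congr 1
    rw [Multiset.filter_map]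
    rfl
  rw [grundy_def, val_def]
  congr 1
  ext n
  simp only [Set.mem_ofPred_eq]
  constructor
  · intro h1
    refine ⟨?_, ?_, ?_, ?_⟩
    · rw [hcard, ← h.moveStarA.2]; exact (h1 _ h.moveStarA.1).symm
    · rw [← h.moveStarB.2]; exact (h1 _ h.moveStarB.1).symm
    · intro S hS
      obtain ⟨x, hx, rfl⟩ := Multiset.mem_map.mp hS
      rw [← hA x hx]
      exact h1 _ (h.moveA hx).1
    · intro y hy
      have := hB ⟨y, h.hB hy⟩ hy
      rw [← this]
      exact h1 _ (h.moveB (y := ⟨y, h.hB hy⟩) hy).1
  · rintro ⟨h1, h2, h3, h4⟩ χ' hm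
    rcases h.moves hm with ⟨x, hx, rfl⟩ | ⟨y, hy, rfl⟩ | rfl | rfl
    · rw [hA x hx]
      exact h3 _ (Multiset.mem_map_of_mem N hx)
    · rw [hB y hy]
      exact h4 _ hy
    · rw [h.moveStarA.2, ← hcard]; exact h1.symm
    · rw [h.moveStarB.2]; exact h2.symm

end Pool.Agent.Q157.FC
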