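import Pool.Agent.Q157.FC.Val

/-!
Gadgets: positions of the auxiliary game with the values `3, 4, 5, ...`.
-/

namespace Pool.Agent.Q157.FC

open Finset

/-- The sets outside of a gadget on the set `I`: every one is disjoint from `I` or contains `I`,
an even number contain `I`, and at least `k` are disjoint from `I`. -/
structure Ctx (O : Multiset (Finset ℕ)) (I : Finset ℕ) (k : ℕ) : Prop where
  neutral : ∀ S ∈ O, Disjoint S I ∨ I ⊆ S
  even : ∀ y ∈ I, Multiset.card (O.filter (fun S => y ∈ S)) % 2 = 0
  many : k ≤ Multiset.card (O.filter (fun S => Disjoint S I))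

lemma card_filter_split (O : Multiset (Finset ℕ)) (y : ℕ) :
    Multiset.card (O.filter (fun S => y ∈ S)) + Multiset.card (O.filter (fun S => y ∉ S)) =
      Multiset.card O := by
  rw [← Multiset.card_add, Multiset.filter_add_not]

lemma Ctx.card_le {O : Multiset (Finset ℕ)} {I : Finset ℕ} {k : ℕ} (h : Ctx O I k) :
    k ≤ Multiset.card O :=
  h.many.trans (Multiset.card_le_card (Multiset.filter_le _ _))

lemma Ctx.card_filter {O : Multiset (Finset ℕ)} {I : Finset ℕ} {k : ℕ} (h : Ctx O I k) {y : ℕ}
    (hy : y ∈ I) : k ≤ Multiset.card (O.filter (fun S => y ∉ S)) := by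
  refine h.many.trans (Multiset.card_le_card ?_)
  apply Multiset.monotone_filter_right
  intro S hS hyS
  exact Finset.disjoint_left.mp hS hyS hy

lemma Ctx.isolated {O : Multiset (Finset ℕ)} {I : Finset ℕ} {k : ℕ} (h : Ctx O I k) {y : ℕ}
    (hy : y ∈ I) : ∀ S ∈ O.filter (fun S => y ∉ S), Disjoint S (I.erase y) := by
  intro S hS
  rw [Multiset.mem_filter] at hS
  rcases h.neutral S hS.1 with h1 | h1
  · exact h1.mono_right (Finset.erase_subset _ _)
  · exact absurd (h1 hy) hS.2

lemma ctx_ne_zero {O : Multiset (Finset ℕ)} {I : Finset ℕ} (h : Ctx O I 1) (hI : 2 ≤ I.card)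
    (hpar : (Multiset.card O + I.card) % 2 = 1) : val O I ≠ 0 := by
  intro h0
  obtain ⟨y, hy⟩ := Finset.card_pos.mp (by omega : 0 < I.card)
  have hex := excl_val O I
  rw [h0] at hex
  have h1 := card_filter_split O y
  have h2 := h.even y hy
  have h3 := Finset.card_erase_add_one hy
  have h4 := h.card_filter hy
  exact hex.2.2.2 y hy ((val_isolated _ _ (h.isolated hy) h4 (by omega)).1 (by omega))

lemma ctx_zero {O : Multiset (Finset ℕ)} {I : Finset ℕ} (h : Ctx O I 2) (hI : 2 ≤ I.card)
    (hpar : (Multiset.card O + I.card) % 2 = 0) : val O I = 0 := by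
  have hO := h.card_le
  apply val_eq
  · refine ⟨(t_ne_zero (by omega)).symm, (t_ne_zero (by omega)).symm, ?_, ?_⟩
    · intro S hS
      rcases h.neutral S hS with h1 | h1
      · rw [Finset.sdiff_eq_self_of_disjoint h1.symm]
        obtain ⟨E, rfl⟩ := Multiset.exists_cons_of_mem hS
        rw [Multiset.erase_cons_head]
        have h2 : Ctx E I 1 := by
          refine ⟨fun S' hS' => h.neutral S' (Multiset.mem_cons_of_mem hS'), ?_, ?_⟩
          · intro y hy
            have h3 := h.even y hy
            rw [Multiset.filter_cons_of_neg] at h3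
            · exact h3
            · exact fun hyS => Finset.disjoint_left.mp h1 hyS hy
          · have h3 := h.many
            rw [Multiset.filter_cons_of_pos (p := fun S => Disjoint S I) _ h1,
              Multiset.card_cons] at h3
            omega
        apply ctx_ne_zero h2 hI
        rw [Multiset.card_cons] at hpar
        omega
      · rw [Finset.sdiff_eq_empty_iff_subset.mpr h1]
        exact val_ne_zero_of_empty_right _
    · intro y hy
      have h1 := card_filter_split O y
      have h2 := h.even y hy
      have h3 := Finset.card_erase_add_one hy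
      have h4 := h.card_filter hy
      exact (val_isolated _ _ (h.isolated hy) (by omega) (by omega)).2 (by omega)
  · intro m hm; omega

/-- The value of the gadget `j`. -/
def w (j : ℕ) : ℕ := if j = 0 then 0 else j + 2

lemma w_le (j : ℕ) : w j ≤ j + 2 := by
  unfold w; split_ifs <;> omega

/-- There is a gadget of the number `j` on every set of `m` elements, `m` of the parity `π`. -/
def Gadget (j π m : ℕ) : Prop :=
  m % 2 = π ∧ 4 ≤ m ∧ ∀ I : Finset ℕ, I.card = m → ∀ p ∉ I, ∃ H : Multiset (Finset ℕ),
    (∀ S ∈ H, S ⊆ insert p I ∧ S.card % 2 = 0) ∧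
    ∀ O, Ctx O I (j + 4) →
      (Multiset.card (H + H + O) + m) % 2 = (if j = 0 then 0 else 1) →
      val (H + H + O) I = w j

lemma exists_parts (μ : ℕ → ℕ) (own j : ℕ) : ∀ I : Finset ℕ,
    I.card = (∑ i ∈ range j, μ i) + own → ∃ (J : ℕ → Finset ℕ) (E : Finset ℕ),
      (∀ i < j, J i ⊆ I ∧ (J i).card = μ i) ∧ E ⊆ I ∧ E.card = own ∧
      (∀ i < j, Disjoint (J i) E) ∧ ∀ i < j, ∀ l < j, i ≠ l → Disjoint (J i) (J l) := by
  induction j with
  | zero =>
    intro I hI
    refine ⟨fun _ => ∅, I, ?_, Finset.Subset.refl _, by simpa using hI, ?_, ?_⟩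
    · intro i hi; omega
    · intro i hi; omega
    · intro i hi; omega
  | succ j ih =>
    intro I hI
    rw [Finset.sum_range_succ] at hI
    obtain ⟨T, hT, hTc⟩ := Finset.exists_subset_card_eq (by omega : μ j ≤ I.card)
    have h1 : (I \ T).card = (∑ i ∈ range j, μ i) + own := by
      rw [Finset.card_sdiff_of_subset hT]; omega
    obtain ⟨J, E, hJ, hE, hEc, hJE, hJJ⟩ := ih (I \ T) h1
    have hTd : ∀ X : Finset ℕ, X ⊆ I \ T → Disjoint X T := by
      intro X hX
      exact Finset.disjoint_of_subset_left hX Finset.sdiff_disjoint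
    refine ⟨Function.update J j T, E, ?_, hE.trans Finset.sdiff_subset, hEc, ?_, ?_⟩
    · intro i hi
      by_cases hij : i = j
      · subst hij; simp [hT, hTc]
      · rw [Function.update_of_ne hij]
        exact ⟨(hJ i (by omega)).1.trans Finset.sdiff_subset, (hJ i (by omega)).2⟩
    · intro i hi
      by_cases hij : i = j
      · subst hij; rw [Function.update_self]; exact (hTd E hE).symm
      · rw [Function.update_of_ne hij]; exact hJE i (by omega)
    · intro i hi l hl hil
      by_cases hij : i = j
      · subst hij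
        rw [Function.update_self, Function.update_of_ne (Ne.symm hil)]
        exact (hTd _ (hJ l (by omega)).1).symm
      · by_cases hlj : l = j
        · subst hlj
          rw [Function.update_self, Function.update_of_ne hij]
          exact hTd _ (hJ i (by omega)).1
        · rw [Function.update_of_ne hij, Function.update_of_ne hlj]
          exact hJJ i (by omega) l (by omega) hil

theorem exists_gadget (j : ℕ) : ∀ π < 2, ∃ m, Gadget j π m := by
  induction j using Nat.strong_induction_on with
  | _ j IH =>
  intro π hπ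
  rcases Nat.eq_zero_or_pos j with hj | hj
  · subst hj
    refine ⟨4 + π, by omega, by omega, ?_⟩
    intro I hI p hp
    refine ⟨0, by simp, ?_⟩
    intro O hO hpar
    rw [if_pos rfl] at hpar
    have e0 : (0 : Multiset (Finset ℕ)) + 0 + O = O := by simp
    rw [e0] at hpar ⊢
    have hO2 : Ctx O I 2 := ⟨hO.neutral, hO.even, by have := hO.many; omega⟩
    rw [ctx_zero hO2 (by omega) (by omega)]
    rfl
  -- the children
  have h1 : ∀ i, ∃ m, i < j → Gadget i (if i = 0 then π else 1 - π) m := by
    intro i
    by_cases hi : i < j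
    · obtain ⟨m, hm⟩ := IH i hi (if i = 0 then π else 1 - π) (by split_ifs <;> omega)
      exact ⟨m, fun _ => hm⟩
    · exact ⟨0, fun h => absurd h hi⟩
  choose μ hμ using h1
  obtain ⟨M, hM⟩ : ∃ M, M = ∑ i ∈ range j, μ i := ⟨_, rfl⟩
  obtain ⟨own, hown⟩ : ∃ own, own = 4 + (M + π) % 2 := ⟨_, rfl⟩
  have hmpar : (M + own) % 2 = π := by omega
  refine ⟨M + own, hmpar, by omega, ?_⟩
  intro I hI p hp
  obtain ⟨J, E, hJ, hE, hEc, hJE, hJJ⟩ := exists_parts μ own j I (by rw [hI, hM])
  obtain ⟨p', hp'⟩ := Finset.card_pos.mp (by omega : 0 < E.card)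
  have hp'J : ∀ i < j, p' ∉ J i := fun i hi h => Finset.disjoint_left.mp (hJE i hi) h hp'
  have hE' : 3 ≤ (E.erase p').card := by
    have := Finset.card_erase_add_one hp'
    omega
  have h2 : ∀ i, ∃ H : Multiset (Finset ℕ), i < j →
      (∀ S ∈ H, S ⊆ insert p' (J i) ∧ S.card % 2 = 0) ∧
      ∀ O, Ctx O (J i) (i + 4) →
        (Multiset.card (H + H + O) + μ i) % 2 = (if i = 0 then 0 else 1) →
        val (H + H + O) (J i) = w i := by
    intro i
    by_cases hi : i < j
    · obtain ⟨H, hH⟩ := (hμ i hi).2.2 (J i) (hJ i hi).2 p' (hp'J i hi)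
      exact ⟨H, fun _ => hH⟩
    · exact ⟨0, fun h => absurd h hi⟩
  choose Hc hHc using h2
  obtain ⟨sel, hsel⟩ : ∃ sel : ℕ → Finset ℕ,
      sel = fun i => if i = 0 then I \ J 0 else insert p (I \ J i) := ⟨_, rfl⟩
  have sel_sub : ∀ i, sel i ⊆ insert p I := by
    intro i
    rw [hsel]
    by_cases hi : i = 0
    · simp only [hi, if_true]
      exact Finset.sdiff_subset.trans (Finset.subset_insert _ _)
    · simp only [hi, if_false]
      exact Finset.insert_subset_insert _ Finset.sdiff_subset
  have sel_sup : ∀ i, I \ J i ⊆ sel i := by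
    intro i
    rw [hsel]
    by_cases hi : i = 0
    · subst hi; simp
    · simp only [hi, if_false]
      exact Finset.subset_insert _ _
  have sel_disj : ∀ i < j, Disjoint (sel i) (J i) := by
    intro i hi
    rw [Finset.disjoint_left]
    intro y hy hyJ
    have hyI : y ∈ I := (hJ i hi).1 hyJ
    rw [hsel] at hy
    by_cases hi0 : i = 0
    · simp only [hi0, if_true] at hy
      rw [hi0] at hyJ
      exact (Finset.mem_sdiff.mp hy).2 hyJ
    · simp only [hi0, if_false] at hy
      rcases Finset.mem_insert.mp hy with h3 | h3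
      · exact hp (h3 ▸ hyI)
      · exact (Finset.mem_sdiff.mp h3).2 hyJ
  have sel_sdiff : ∀ i < j, I \ sel i = J i := by
    intro i hi
    ext y
    rw [Finset.mem_sdiff]
    constructor
    · rintro ⟨h3, h4⟩
      by_contra h5
      exact h4 (sel_sup i (Finset.mem_sdiff.mpr ⟨h3, h5⟩))
    · intro h3
      exact ⟨(hJ i hi).1 h3, fun h4 => Finset.disjoint_left.mp (sel_disj i hi) h4 h3⟩
  have sel_even : ∀ i < j, (sel i).card % 2 = 0 := by
    intro i hi
    have h3 := Finset.card_sdiff_of_subset (hJ i hi).1
    have h4 := Finset.card_le_card (hJ i hi).1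
    have h5 := (hμ i hi).1
    have h6 := (hJ i hi).2
    rw [hsel]
    by_cases hi0 : i = 0
    · subst hi0
      simp only [if_true] at h5 ⊢
      omega
    · simp only [hi0, if_false] at h5 ⊢
      rw [Finset.card_insert_of_notMem (fun h => hp (Finset.mem_sdiff.mp h).1)]
      omega
  have Hc_sub : ∀ i < j, ∀ S ∈ Hc i, S ⊆ insert p' (J i) := fun i hi S hS =>
    ((hHc i hi).1 S hS).1
  have Hc_subI : ∀ i < j, ∀ S ∈ Hc i, S ⊆ I := by
    intro i hi S hS
    exact (Hc_sub i hi S hS).trans (Finset.insert_subset (hE hp') (hJ i hi).1)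
  have Hc_disj : ∀ i < j, ∀ l < j, i ≠ l → ∀ S ∈ Hc l, Disjoint S (J i) := by
    intro i hi l hl hil S hS
    rw [Finset.disjoint_left]
    intro y hy hyJ
    rcases Finset.mem_insert.mp (Hc_sub l hl S hS hy) with h3 | h3
    · exact hp'J i hi (h3 ▸ hyJ)
    · exact Finset.disjoint_left.mp (hJJ i hi l hl hil) hyJ h3
  obtain ⟨D, hD⟩ : ∃ D : ℕ → Multiset (Finset ℕ), D = fun i => Hc i + {sel i} := ⟨_, rfl⟩
  have mem_D : ∀ i S, S ∈ D i ↔ S ∈ Hc i ∨ S = sel i := by
    intro i S; rw [hD]; simp
  refine ⟨∑ i ∈ range j, D i, ?_, ?_⟩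
  · intro S hS
    rw [Multiset.mem_sum] at hS
    obtain ⟨i, hi, hS⟩ := hS
    rw [Finset.mem_range] at hi
    rcases (mem_D i S).mp hS with h3 | h3
    · exact ⟨(Hc_subI i hi S h3).trans (Finset.subset_insert _ _), ((hHc i hi).1 S h3).2⟩
    · rw [h3]; exact ⟨sel_sub i, sel_even i hi⟩
  intro O hO hpar
  rw [if_neg (by omega)] at hpar
  obtain ⟨H, hHdef⟩ : ∃ H, H = ∑ i ∈ range j, D i := ⟨_, rfl⟩
  rw [← hHdef] at hpar ⊢
  obtain ⟨F, hF⟩ : ∃ F, F = H + H + O := ⟨_, rfl⟩
  rw [← hF] at hpar ⊢
  have hOcard := hO.card_le
  have hFcard : j + 4 ≤ Multiset.card F := by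
    rw [hF, Multiset.card_add]; omega
  -- the value after the selector i
  have child : ∀ i < j, sel i ∈ F ∧ val (F.erase (sel i)) (I \ sel i) = w i := by
    intro i hi
    obtain ⟨R, hR⟩ : ∃ R, R = ∑ l ∈ (range j).erase i, D l := ⟨_, rfl⟩
    have e1 : H = D i + R := by
      rw [hHdef, hR, Finset.add_sum_erase _ _ (Finset.mem_range.mpr hi)]
    have e2 : F = sel i ::ₘ (Hc i + Hc i + (sel i ::ₘ (R + R + O))) := by
      rw [hF, e1, hD]
      simp only [← Multiset.singleton_add]
      abel
    have hctx : Ctx (sel i ::ₘ (R + R + O)) (J i) (i + 4) := by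
      refine ⟨?_, ?_, ?_⟩
      · intro S hS
        rcases Multiset.mem_cons.mp hS with h3 | h3
        · rw [h3]; exact Or.inl (sel_disj i hi)
        rw [Multiset.mem_add, Multiset.mem_add] at h3
        have hRR : S ∈ R → Disjoint S (J i) ∨ J i ⊆ S := by
          intro h4
          rw [hR, Multiset.mem_sum] at h4
          obtain ⟨l, hl, h4⟩ := h4
          rw [Finset.mem_erase, Finset.mem_range] at hl
          rcases (mem_D l S).mp h4 with h5 | h5
          · exact Or.inl (Hc_disj i hi l hl.2 (Ne.symm hl.1) S h5)
          · right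
            rw [h5]
            refine Finset.Subset.trans ?_ (sel_sup l)
            intro y hy
            rw [Finset.mem_sdiff]
            exact ⟨(hJ i hi).1 hy, fun h6 =>
              Finset.disjoint_left.mp (hJJ i hi l hl.2 (Ne.symm hl.1)) hy h6⟩
        rcases h3 with (h3 | h3) | h3
        · exact hRR h3
        · exact hRR h3
        · rcases hO.neutral S h3 with h4 | h4
          · exact Or.inl (h4.mono_right (hJ i hi).1)
          · exact Or.inr ((hJ i hi).1.trans h4)
      · intro y hy
        rw [Multiset.filter_cons_of_neg (p := fun S => y ∈ S) _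
          (fun h => Finset.disjoint_left.mp (sel_disj i hi) h hy)]
        rw [Multiset.filter_add, Multiset.filter_add, Multiset.card_add, Multiset.card_add]
        have := hO.even y ((hJ i hi).1 hy)
        omega
      · have h3 : Multiset.card (O.filter (fun S => Disjoint S I)) ≤
            Multiset.card ((sel i ::ₘ (R + R + O)).filter (fun S => Disjoint S (J i))) := by
          apply Multiset.card_le_card
          have h4 : O ≤ sel i ::ₘ (R + R + O) :=
            (Multiset.le_add_left _ _).trans (Multiset.le_cons_self _ _)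
          refine (Multiset.filter_le_filter _ h4).trans ?_
          apply Multiset.monotone_filter_right
          intro S hS
          exact Disjoint.mono_right (hJ i hi).1 hS
        have := hO.many
        omega
    refine ⟨by rw [e2]; exact Multiset.mem_cons_self _ _, ?_⟩
    rw [sel_sdiff i hi, e2, Multiset.erase_cons_head]
    apply (hHc i hi).2 _ hctx
    have e3 : Multiset.card F =
        Multiset.card (Hc i + Hc i + (sel i ::ₘ (R + R + O))) + 1 := by
      rw [e2, Multiset.card_cons]
    have h5 := (hμ i hi).1
    by_cases hi0 : i = 0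
    · rw [if_pos hi0] at h5 ⊢
      omega
    · rw [if_neg hi0] at h5 ⊢
      omega
  have hw : w j = j + 2 := by unfold w; rw [if_neg (by omega)]
  rw [hw]
  apply val_eq
  · refine ⟨?_, ?_, ?_, ?_⟩
    · have := t_le (Multiset.card F); omega
    · have := t_le I.card; omega
    · intro S hS
      have hS' := hS
      rw [hF, Multiset.mem_add, Multiset.mem_add] at hS
      have herase := Multiset.card_erase_add_one hS'
      have hHS : S ∈ H → val (F.erase S) (I \ S) ≠ j + 2 := by
        intro h3
        rw [hHdef, Multiset.mem_sum] at h3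
        obtain ⟨i, hi, h3⟩ := h3
        rw [Finset.mem_range] at hi
        rcases (mem_D i S).mp h3 with h4 | h4
        · have h5 := Finset.card_sdiff_of_subset (Hc_subI i hi S h4)
          have h6 := Finset.card_le_card (Hc_subI i hi S h4)
          have h7 := ((hHc i hi).1 S h4).2
          have h8 : (E.erase p').card ≤ (I \ S).card := by
            apply Finset.card_le_card
            intro y hy
            rw [Finset.mem_erase] at hy
            rw [Finset.mem_sdiff]
            refine ⟨hE hy.2, fun h9 => ?_⟩
            rcases Finset.mem_insert.mp (Hc_sub i hi S h4 h9) with h10 | h10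
            · exact hy.1 h10
            · exact Finset.disjoint_left.mp (hJE i hi) h10 hy.2
          have := val_le_two (F := F.erase S) (B := I \ S) (by omega) (by omega) (by omega)
          omega
        · rw [h4, (child i hi).2]
          have := w_le i
          omega
      rcases hS with (h3 | h3) | h3
      · exact hHS h3
      · exact hHS h3
      · rcases hO.neutral S h3 with h4 | h4
        · rw [Finset.sdiff_eq_self_of_disjoint h4.symm]
          have := val_le_two (F := F.erase S) (B := I) (by omega) (by omega) (by omega)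
          omega
        · rw [Finset.sdiff_eq_empty_iff_subset.mpr h4, val_empty]
          have := t_le (Multiset.card (F.erase S) + 1)
          omega
    · intro y hy
      have h3 := card_filter_split F y
      have h4 := Finset.card_erase_add_one hy
      have h5 : Multiset.card (F.filter (fun S => y ∈ S)) % 2 = 0 := by
        rw [hF, Multiset.filter_add, Multiset.filter_add, Multiset.card_add, Multiset.card_add]
        have := hO.even y hy
        omega
      have h6 : j + 4 ≤ Multiset.card (F.filter (fun S => y ∉ S)) := by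
        refine (hO.card_filter hy).trans (Multiset.card_le_card ?_)
        apply Multiset.filter_le_filter
        rw [hF]
        exact Multiset.le_add_left _ _
      have := val_le_two (F := F.filter (fun S => y ∉ S)) (B := I.erase y) (by omega) (by omega)
        (by omega)
      omega
  · intro m' hm' hex
    by_cases h0 : m' = 0
    · obtain ⟨h3, h4⟩ := child 0 hj
      exact hex.2.2.1 _ h3 (by rw [h4, h0]; rfl)
    by_cases h1 : m' = 1
    · rcases Nat.mod_two_eq_zero_or_one (Multiset.card F) with h3 | h3
      · exact hex.2.1 (by rw [t_odd (by omega), h1])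
      · exact hex.1 (by rw [t_odd h3, h1])
    by_cases h2 : m' = 2
    · rcases Nat.mod_two_eq_zero_or_one (Multiset.card F) with h3 | h3
      · exact hex.1 (by rw [t_even h3 (by omega), h2])
      · exact hex.2.1 (by rw [t_even (by omega) (by omega), h2])
    obtain ⟨h3, h4⟩ := child (m' - 2) (by omega)
    refine hex.2.2.1 _ h3 ?_
    rw [h4]
    unfold w
    rw [if_neg (by omega)]
    omega

end Pool.Agent.Q157.FC
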