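import Mathlib

/-!
2-colour flag coloring: definitions and the value of a star.
-/

namespace Pool.Agent.Q157.FC

/-- `w` belongs to the monochromatic component of `v`. -/
def Mono {V : Type} (G : SimpleGraph V) (χ : V → Bool) (v w : V) : Prop :=
  Relation.ReflTransGen (fun x y => G.Adj x y ∧ χ x = χ y) v w

open Classical in
/-- The colouring after the monochromatic component of `v` has got the other colour. -/
noncomputable def recolour {V : Type} (G : SimpleGraph V) (χ : V → Bool) (v : V) : V → Bool :=
  fun w => if Mono G χ v w then !χ w else χ w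

/-- There is a move from `χ` to `χ'`: pick a vertex `v` with a neighbour `u` of the other colour
and recolour the monochromatic component of `v`. -/
def Move {V : Type} (G : SimpleGraph V) (χ χ' : V → Bool) : Prop :=
  ∃ v u, G.Adj v u ∧ χ u ≠ χ v ∧ χ' = recolour G χ v

section basic

variable {V : Type} {G : SimpleGraph V} {χ : V → Bool}

lemma Mono.color {v w : V} (h : Mono G χ v w) : χ w = χ v := by
  induction h with
  | refl => rfl
  | tail _ h2 ih => rw [← h2.2, ih]

lemma Mono.step {v x y : V} (h : Mono G χ v x) (h1 : G.Adj x y) (h2 : χ x = χ y) :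
    Mono G χ v y :=
  Relation.ReflTransGen.tail h ⟨h1, h2⟩

lemma Mono.symm {v w : V} (h : Mono G χ v w) : Mono G χ w v := by
  induction h with
  | refl => exact Relation.ReflTransGen.refl
  | tail _ h2 ih => exact Relation.ReflTransGen.head ⟨h2.1.symm, h2.2.symm⟩ ih

lemma Mono.trans {u v w : V} (h : Mono G χ u v) (h' : Mono G χ v w) : Mono G χ u w :=
  Relation.ReflTransGen.trans h h'

lemma mono_single {v : V} (h : ∀ u, G.Adj v u → χ v ≠ χ u) {w : V} :
    Mono G χ v w ↔ w = v := by
  constructor
  · intro hm
    rcases Relation.ReflTransGen.cases_head hm with h1 | ⟨u, h1, _⟩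
    · exact h1.symm
    · exact absurd h1.2 (h u h1.1)
  · rintro rfl
    exact Relation.ReflTransGen.refl

lemma recolour_congr {v w : V} (h : Mono G χ v w) : recolour G χ v = recolour G χ w := by
  funext x
  unfold recolour
  by_cases h1 : Mono G χ v x
  · rw [if_pos h1, if_pos (h.symm.trans h1)]
  · rw [if_neg h1, if_neg (fun h2 => h1 (h.trans h2))]

end basic

section value

variable {V : Type} [Fintype V]

open Classical in
/-- The number of the ordered pairs of adjacent vertices of different colours. -/
noncomputable def bi (G : SimpleGraph V) (χ : V → Bool) : ℕ :=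
  (Finset.univ.filter (fun p : V × V => G.Adj p.1 p.2 ∧ χ p.1 ≠ χ p.2)).card

lemma bi_lt (G : SimpleGraph V) {χ χ' : V → Bool} (h : Move G χ χ') : bi G χ' < bi G χ := by
  classical
  obtain ⟨v, u, h1, h2, rfl⟩ := h
  unfold bi
  apply Finset.card_lt_card
  rw [Finset.ssubset_iff_of_subset]
  · refine ⟨(v, u), ?_, ?_⟩
    · rw [Finset.mem_filter]
      exact ⟨Finset.mem_univ _, h1, Ne.symm h2⟩
    · rw [Finset.mem_filter]
      rintro ⟨-, -, h3⟩
      apply h3
      have e1 : Mono G χ v v := Relation.ReflTransGen.refl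
      have e2 : ¬ Mono G χ v u := fun h4 => h2 h4.color
      simp only [recolour, e1, e2, if_true, if_false]
      revert h2
      cases χ u <;> cases χ v <;> simp
  · intro p hp
    rw [Finset.mem_filter] at hp ⊢
    refine ⟨Finset.mem_univ _, hp.2.1, ?_⟩
    intro h3
    apply hp.2.2
    by_cases h4 : Mono G χ v p.1
    · have h5 : Mono G χ v p.2 := h4.step hp.2.1 h3
      simp only [recolour, h4, h5, if_true, h3]
    · have h5 : ¬ Mono G χ v p.2 := fun h6 => h4 (h6.step hp.2.1.symm h3.symm)
      simp only [recolour, h4, h5, if_false, h3]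

lemma move_wf (G : SimpleGraph V) :
    WellFounded (fun χ' χ : V → Bool => Move G χ χ') :=
  Subrelation.wf (r := InvImage (· < ·) (bi G)) (fun h => bi_lt G h) (InvImage.wf _ Nat.lt_wfRel.wf)

/-- The Grundy value of a position: the least number which is not a Grundy value of a position
reachable in one move. -/
noncomputable def grundy (G : SimpleGraph V) : (V → Bool) → ℕ :=
  (move_wf G).fix (fun χ rec => sInf {n | ∀ χ' (h : Move G χ χ'), rec χ' h ≠ n})

lemma grundy_def (G : SimpleGraph V) (χ : V → Bool) :
    grundy G χ = sInf {n | ∀ χ', Move G χ χ' → grundy G χ' ≠ n} := by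
  unfold grundy
  rw [WellFounded.fix_eq]

lemma grundy_eq {G : SimpleGraph V} {χ : V → Bool} {n : ℕ}
    (h : ∀ χ', Move G χ χ' → grundy G χ' ≠ n)
    (h' : ∀ m < n, ∃ χ', Move G χ χ' ∧ grundy G χ' = m) : grundy G χ = n := by
  rw [grundy_def]
  apply le_antisymm
  · exact Nat.sInf_le h
  · by_contra hlt
    rw [not_le] at hlt
    obtain ⟨χ', h1, h2⟩ := h' _ hlt
    exact Nat.sInf_mem (s := {n | ∀ χ', Move G χ χ' → grundy G χ' ≠ n}) ⟨n, h⟩ χ' h1 h2

lemma grundy_const (G : SimpleGraph V) {χ : V → Bool} (c : Bool) (h : ∀ v, χ v = c) :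
    grundy G χ = 0 := by
  apply grundy_eq
  · rintro χ' ⟨v, u, -, h2, -⟩
    exact absurd ((h u).trans (h v).symm) h2
  · intro m hm; omega

end value

end Pool.Agent.Q157.FC
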