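import Mathlib

/-!
An auxiliary impartial game. A position is a multiset `F` of sets of numbers together with a
finite set `B` of numbers. The moves: take a member `S` of `F` away and replace `B` by `B \ S`;
take a number `y` of `B` away together with all members of `F` that contain `y`; two terminal
moves to positions of the values `t |F|` and `t |B|`.
-/

namespace Pool.Agent.Q157.FC

/-- The value of a star with `n` leaves. -/
def t (n : ℕ) : ℕ := if n = 0 then 0 else if n % 2 = 1 then 1 else 2

lemma t_zero : t 0 = 0 := rfl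

lemma t_odd {n : ℕ} (h : n % 2 = 1) : t n = 1 := by
  unfold t; split_ifs <;> omega

lemma t_even {n : ℕ} (h : n % 2 = 0) (h0 : n ≠ 0) : t n = 2 := by
  unfold t; split_ifs <;> omega

lemma t_le (n : ℕ) : t n ≤ 2 := by
  unfold t; split_ifs <;> omega

lemma t_ne_zero {n : ℕ} (h0 : n ≠ 0) : t n ≠ 0 := by
  unfold t; split_ifs <;> omega

lemma t_succ_ne (n : ℕ) : t (n + 1 + 1) ≠ t (n + 1) := by
  rcases Nat.mod_two_eq_zero_or_one n with h | h
  · have e1 : t (n + 1 + 1) = 2 := t_even (by omega) (by omega)
    have e2 : t (n + 1) = 1 := t_odd (by omega)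
    omega
  · have e1 : t (n + 1 + 1) = 1 := t_odd (by omega)
    have e2 : t (n + 1) = 2 := t_even (by omega) (by omega)
    omega

lemma t_even_ne_one {n : ℕ} (h : n % 2 = 0) : t n ≠ 1 := by
  unfold t; split_ifs <;> omega

open Classical in
/-- The Grundy value of the auxiliary game. -/
noncomputable def val (F : Multiset (Finset ℕ)) (B : Finset ℕ) : ℕ :=
  sInf {n | n ≠ t (Multiset.card F) ∧ n ≠ t B.card ∧
    (∀ S, (h : S ∈ F) → val (F.erase S) (B \ S) ≠ n) ∧
    (∀ y, (h : y ∈ B) → val (F.filter (fun S => y ∉ S)) (B.erase y) ≠ n)}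
termination_by Multiset.card F + B.card
decreasing_by
  · have h1 := Multiset.card_erase_lt_of_mem h
    have h2 := Finset.card_le_card (Finset.sdiff_subset : B \ S ⊆ B)
    omega
  · have h1 := Multiset.card_le_card (Multiset.filter_le (fun S => y ∉ S) F)
    have h2 := Finset.card_erase_lt_of_mem h
    omega

/-- The values which are excluded. -/
def Excl (F : Multiset (Finset ℕ)) (B : Finset ℕ) (n : ℕ) : Prop :=
  n ≠ t (Multiset.card F) ∧ n ≠ t B.card ∧
    (∀ S, S ∈ F → val (F.erase S) (B \ S) ≠ n) ∧
    (∀ y, y ∈ B → val (F.filter (fun S => y ∉ S)) (B.erase y) ≠ n)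

lemma val_def (F : Multiset (Finset ℕ)) (B : Finset ℕ) : val F B = sInf {n | Excl F B n} := by
  rw [val]
  congr 1

lemma excl_exists (F : Multiset (Finset ℕ)) (B : Finset ℕ) : ∃ n, Excl F B n := by
  classical
  refine ⟨(∑ S ∈ F.toFinset, val (F.erase S) (B \ S)) +
    (∑ y ∈ B, val (F.filter (fun S => y ∉ S)) (B.erase y)) + 3, ?_, ?_, ?_, ?_⟩
  · have := t_le (Multiset.card F); omega
  · have := t_le B.card; omega
  · intro S hS
    have := Finset.single_le_sum (f := fun S => val (F.erase S) (B \ S))
      (fun _ _ => Nat.zero_le _) (Multiset.mem_toFinset.mpr hS)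
    omega
  · intro y hy
    have := Finset.single_le_sum (f := fun y => val (F.filter (fun S => y ∉ S)) (B.erase y))
      (fun _ _ => Nat.zero_le _) hy
    omega

lemma excl_val (F : Multiset (Finset ℕ)) (B : Finset ℕ) : Excl F B (val F B) := by
  rw [val_def]
  exact Nat.sInf_mem (s := {n | Excl F B n}) (excl_exists F B)

lemma val_le {F : Multiset (Finset ℕ)} {B : Finset ℕ} {n : ℕ} (h : Excl F B n) : val F B ≤ n := by
  rw [val_def]
  exact Nat.sInf_le h

lemma val_eq {F : Multiset (Finset ℕ)} {B : Finset ℕ} {n : ℕ} (h : Excl F B n)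
    (h' : ∀ m < n, ¬ Excl F B m) : val F B = n := by
  rcases Nat.lt_or_ge (val F B) n with h1 | h1
  · exact absurd (excl_val F B) (h' _ h1)
  · exact le_antisymm (val_le h) h1

/-! ### Even sums -/

lemma val_le_one {F : Multiset (Finset ℕ)} {B : Finset ℕ} (hF : Multiset.card F % 2 = 0)
    (hB : B.card % 2 = 0) : val F B ≤ 1 := by
  apply val_le
  refine ⟨(t_even_ne_one hF).symm, (t_even_ne_one hB).symm, ?_, ?_⟩
  · intro S hS h
    have h1 := (excl_val (F.erase S) (B \ S)).1
    rw [h, t_odd] at h1
    · exact h1 rfl
    · have h2 := Multiset.card_erase_add_one hS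
      omega
  · intro y hy h
    have h1 := (excl_val (F.filter (fun S => y ∉ S)) (B.erase y)).2.1
    rw [h, t_odd] at h1
    · exact h1 rfl
    · have h2 := Finset.card_erase_add_one hy
      omega

lemma val_le_two' {F : Multiset (Finset ℕ)} {B : Finset ℕ} (hF : Multiset.card F % 2 = 1)
    (hB : B.card % 2 = 1) (hF3 : 3 ≤ Multiset.card F) (hB3 : 3 ≤ B.card) : val F B ≤ 2 := by
  apply val_le
  refine ⟨by rw [t_odd hF]; norm_num, by rw [t_odd hB]; norm_num, ?_, ?_⟩
  · intro S hS h
    have h1 := (excl_val (F.erase S) (B \ S)).1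
    have h2 := Multiset.card_erase_add_one hS
    rw [h, t_even] at h1
    · exact h1 rfl
    · omega
    · omega
  · intro y hy h
    have h1 := (excl_val (F.filter (fun S => y ∉ S)) (B.erase y)).2.1
    have h2 := Finset.card_erase_add_one hy
    rw [h, t_even] at h1
    · exact h1 rfl
    · omega
    · omega

lemma val_le_two {F : Multiset (Finset ℕ)} {B : Finset ℕ}
    (h : (Multiset.card F + B.card) % 2 = 0) (hF3 : 3 ≤ Multiset.card F) (hB3 : 3 ≤ B.card) :
    val F B ≤ 2 := by
  rcases Nat.mod_two_eq_zero_or_one (Multiset.card F) with h1 | h1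
  · exact (val_le_one h1 (by omega)).trans (by norm_num)
  · exact val_le_two' h1 (by omega) hF3 hB3

/-! ### Stars -/

lemma val_empty (F : Multiset (Finset ℕ)) : val F ∅ = t (Multiset.card F + 1) := by
  induction hn : Multiset.card F generalizing F with
  | zero =>
    have hF : F = 0 := Multiset.card_eq_zero.mp hn
    subst hF
    apply val_eq
    · refine ⟨?_, ?_, ?_, ?_⟩
      · simp [t]
      · simp [t]
      · intro S hS; simp at hS
      · intro y hy; simp at hy
    · intro m hm h
      have h1 : t (0 + 1) = 1 := rfl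
      rw [h1] at hm
      have : m = 0 := by omega
      exact h.1 (by rw [this]; simp [t])
  | succ n ih =>
    have hopt : ∀ S ∈ F, val (F.erase S) (∅ \ S) = t (n + 1) := by
      intro S hS
      rw [Finset.empty_sdiff]
      apply ih
      have := Multiset.card_erase_add_one hS
      omega
    obtain ⟨S, hS⟩ : ∃ S, S ∈ F := by
      apply Multiset.card_pos_iff_exists_mem.mp
      omega
    apply val_eq
    · refine ⟨?_, ?_, ?_, ?_⟩
      · rw [hn]; exact t_succ_ne n
      · rw [Finset.card_empty, t_zero]; exact t_ne_zero (by omega)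
      · intro S hS
        rw [hopt S hS]
        exact (t_succ_ne n).symm
      · intro y hy; simp at hy
    · intro m hm h
      rcases Nat.mod_two_eq_zero_or_one n with h1 | h1
      · -- n + 2 even, value 2
        have e1 : t (n + 1 + 1) = 2 := t_even (by omega) (by omega)
        have e2 : t (n + 1) = 1 := t_odd (by omega)
        rw [e1] at hm
        rcases Nat.lt_or_ge m 1 with h2 | h2
        · exact h.2.1 (by rw [Finset.card_empty, t_zero]; omega)
        · exact h.1 (by rw [hn, e2]; omega)
      · have e1 : t (n + 1 + 1) = 1 := t_odd (by omega)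
        rw [e1] at hm
        exact h.2.1 (by rw [Finset.card_empty, t_zero]; omega)

/-! ### Zero positions -/

lemma val_ne_zero_of_empty_left (B : Finset ℕ) : val 0 B ≠ 0 := by
  intro h
  have := (excl_val 0 B).1
  rw [h] at this
  simp [t] at this

lemma val_ne_zero_of_empty_right (F : Multiset (Finset ℕ)) : val F ∅ ≠ 0 := by
  intro h
  have := (excl_val F ∅).2.1
  rw [h] at this
  simp [t] at this

/-- Only isolated vertices. -/
lemma val_isolated (F : Multiset (Finset ℕ)) (B : Finset ℕ) (hF : ∀ S ∈ F, Disjoint S B)
    (h1 : 1 ≤ Multiset.card F) (h2 : 1 ≤ B.card) :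
    ((Multiset.card F + B.card) % 2 = 0 → val F B = 0) ∧
      ((Multiset.card F + B.card) % 2 = 1 → val F B ≠ 0) := by
  induction hn : Multiset.card F + B.card using Nat.strong_induction_on generalizing F B with
  | _ n IH =>
  have hA : ∀ S ∈ F, val (F.erase S) (B \ S) = val (F.erase S) B := by
    intro S hS
    rw [Finset.sdiff_eq_self_of_disjoint (hF S hS).symm]
  have hB : ∀ y ∈ B, val (F.filter (fun S => y ∉ S)) (B.erase y) = val F (B.erase y) := by
    intro y hy
    rw [Multiset.filter_eq_self.mpr]
    intro S hS hyS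
    exact Finset.disjoint_left.mp (hF S hS) hyS hy
  constructor
  · intro hpar
    apply val_eq
    · refine ⟨(t_ne_zero (by omega)).symm, (t_ne_zero (by omega)).symm, ?_, ?_⟩
      · intro S hS
        rw [hA S hS]
        have h3 := Multiset.card_erase_add_one hS
        by_cases h4 : Multiset.card (F.erase S) = 0
        · rw [Multiset.card_eq_zero.mp h4]
          exact val_ne_zero_of_empty_left B
        · exact (IH (Multiset.card (F.erase S) + B.card) (by omega) (F.erase S) B
            (fun S' hS' => hF S' (Multiset.mem_of_mem_erase hS')) (by omega) h2 rfl).2 (by omega)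
      · intro y hy
        rw [hB y hy]
        have h3 := Finset.card_erase_add_one hy
        by_cases h4 : (B.erase y).card = 0
        · rw [Finset.card_eq_zero.mp h4]
          exact val_ne_zero_of_empty_right F
        · exact (IH (Multiset.card F + (B.erase y).card) (by omega) F (B.erase y)
            (fun S hS => (hF S hS).mono_right (Finset.erase_subset _ _)) h1 (by omega) rfl).2
            (by omega)
    · intro m hm; omega
  · intro hpar h0
    have hex := excl_val F B
    rw [h0] at hex
    by_cases h3 : 2 ≤ Multiset.card F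
    · obtain ⟨S, hS⟩ := Multiset.card_pos_iff_exists_mem.mp (by omega : 0 < Multiset.card F)
      have h4 := Multiset.card_erase_add_one hS
      have h5 := (IH (Multiset.card (F.erase S) + B.card) (by omega) (F.erase S) B
        (fun S' hS' => hF S' (Multiset.mem_of_mem_erase hS')) (by omega) h2 rfl).1 (by omega)
      exact hex.2.2.1 S hS (by rw [hA S hS]; exact h5)
    · obtain ⟨y, hy⟩ := Finset.card_pos.mp (by omega : 0 < B.card)
      have h4 := Finset.card_erase_add_one hy
      have h5 := (IH (Multiset.card F + (B.erase y).card) (by omega) F (B.erase y)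
        (fun S hS => (hF S hS).mono_right (Finset.erase_subset _ _)) h1 (by omega) rfl).1
        (by omega)
      exact hex.2.2.2 y hy (by rw [hB y hy]; exact h5)

end Pool.Agent.Q157.FC
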