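import Pool.Agent.Q157.FC.Game
import Pool.Agent.Q157.FC.Val

/-!
The value of a star: one big component and isolated vertices of the other colour.
-/

namespace Pool.Agent.Q157.FC

open Finset

variable {V : Type} [Fintype V] [DecidableEq V] {G : SimpleGraph V}

/-- The vertices of `S` have the colour `c`, all others the other colour, no two vertices of `S`
are adjacent, all are adjacent to `r`, and the others form one component. -/
structure Star (G : SimpleGraph V) (χ : V → Bool) (S : Finset V) (c : Bool) (r : V) : Prop where
  root : r ∉ S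
  inS : ∀ v ∈ S, χ v = c
  outS : ∀ v ∉ S, χ v = !c
  indep : ∀ v ∈ S, ∀ u ∈ S, ¬ G.Adj v u
  adj : ∀ v ∈ S, G.Adj v r
  conn : ∀ v ∉ S, Mono G χ r v

lemma mono_of_agree {χ χ' : V → Bool} {r : V} {P : V → Prop}
    (hP : ∀ v, Mono G χ r v → P v) (hχ : ∀ v, P v → χ' v = χ v) {v : V} (h : Mono G χ r v) :
    Mono G χ' r v := by
  induction h with
  | refl => exact Relation.ReflTransGen.refl
  | tail h1 h2 ih =>
    refine ih.step h2.1 ?_
    rw [hχ _ (hP _ h1), hχ _ (hP _ (Relation.ReflTransGen.tail h1 h2)), h2.2]

lemma Star.leaf {χ : V → Bool} {S : Finset V} {c : Bool} {r v : V} (h : Star G χ S c r)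
    (hv : v ∈ S) : Move G χ (recolour G χ v) ∧ Star G (recolour G χ v) (S.erase v) c r := by
  have hr := h.outS r h.root
  have hvc := h.inS v hv
  have hsing : ∀ u, G.Adj v u → χ v ≠ χ u := by
    intro u hu
    have h1 : u ∉ S := fun h2 => h.indep v hv u h2 hu
    rw [hvc, h.outS u h1]
    cases c <;> simp
  have hval : ∀ w, recolour G χ v w = if w = v then !c else χ w := by
    intro w
    unfold recolour
    by_cases h1 : w = v
    · rw [if_pos ((mono_single hsing).mpr h1), if_pos h1, h1, hvc]
    · rw [if_neg (fun h2 => h1 ((mono_single hsing).mp h2)), if_neg h1]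
  refine ⟨⟨v, r, h.adj v hv, ?_, rfl⟩, ?_⟩
  · rw [hr, hvc]; cases c <;> simp
  · have hrv : r ≠ v := fun h1 => h.root (h1 ▸ hv)
    refine ⟨fun h1 => h.root (Finset.mem_of_mem_erase h1), ?_, ?_, ?_, ?_, ?_⟩
    · intro w hw
      rw [Finset.mem_erase] at hw
      rw [hval, if_neg hw.1]
      exact h.inS w hw.2
    · intro w hw
      rw [hval]
      by_cases h1 : w = v
      · rw [if_pos h1]
      · rw [if_neg h1]
        exact h.outS w (fun h2 => hw (Finset.mem_erase.mpr ⟨h1, h2⟩))
    · intro w hw u hu
      exact h.indep w (Finset.mem_of_mem_erase hw) u (Finset.mem_of_mem_erase hu)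
    · intro w hw
      exact h.adj w (Finset.mem_of_mem_erase hw)
    · intro w hw
      by_cases h1 : w = v
      · subst h1
        have e1 : Mono G (recolour G χ w) r r := Relation.ReflTransGen.refl
        refine e1.step (h.adj w hv).symm ?_
        rw [hval, hval, if_neg hrv, if_pos rfl, hr]
      · have h2 : w ∉ S := fun h2 => hw (Finset.mem_erase.mpr ⟨h1, h2⟩)
        refine mono_of_agree (P := fun x => x ≠ v) ?_ ?_ (h.conn w h2)
        · intro x hx hxv
          have h3 := hx.color
          rw [hxv, hvc, hr] at h3
          revert h3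
          cases c <;> simp
        · intro x hx
          rw [hval, if_neg hx]

lemma Star.center {χ : V → Bool} {S : Finset V} {c : Bool} {r v : V} (h : Star G χ S c r)
    (hv : v ∉ S) : ∀ w, recolour G χ v w = c := by
  intro w
  unfold recolour
  by_cases h1 : w ∈ S
  · have h2 : ¬ Mono G χ v w := by
      intro h3
      have h4 := h3.color
      rw [h.inS w h1, h.outS v hv] at h4
      revert h4
      cases c <;> simp
    rw [if_neg h2, h.inS w h1]
  · rw [if_pos ((h.conn v hv).symm.trans (h.conn w h1)), h.outS w h1, Bool.not_not]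

theorem Star.value {χ : V → Bool} {S : Finset V} {c : Bool} {r : V} (h : Star G χ S c r) :
    grundy G χ = t S.card := by
  induction hn : S.card generalizing χ S with
  | zero =>
    have hS : S = ∅ := Finset.card_eq_zero.mp hn
    subst hS
    exact grundy_const G (!c) (fun v => h.outS v (by simp))
  | succ n ih =>
    have hopt : ∀ χ', Move G χ χ' → grundy G χ' = 0 ∨ grundy G χ' = t n := by
      rintro χ' ⟨v, u, -, -, rfl⟩
      by_cases hv : v ∈ S
      · right
        apply ih (h.leaf hv).2
        have := Finset.card_erase_add_one hv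
        omega
      · left
        exact grundy_const G c (h.center hv)
    obtain ⟨v, hv⟩ := Finset.card_pos.mp (by omega : 0 < S.card)
    have h1 : ∃ χ', Move G χ χ' ∧ grundy G χ' = t n := by
      refine ⟨_, (h.leaf hv).1, ih (h.leaf hv).2 ?_⟩
      have := Finset.card_erase_add_one hv
      omega
    have h0 : ∃ χ', Move G χ χ' ∧ grundy G χ' = 0 := by
      refine ⟨recolour G χ r, ⟨r, v, (h.adj v hv).symm, ?_, rfl⟩,
        grundy_const G c (h.center h.root)⟩
      rw [h.inS v hv, h.outS r h.root]
      cases c <;> simp
    have ht : t (n + 1) ≠ 0 := t_ne_zero (by omega)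
    have hne : t n ≠ t (n + 1) := by
      cases n with
      | zero => exact ht.symm
      | succ n => exact (t_succ_ne n).symm
    apply grundy_eq
    · intro χ' hχ' h2
      rcases hopt χ' hχ' with h3 | h3
      · exact ht (h2.symm.trans h3)
      · exact hne (h3.symm.trans h2)
    · intro m hm
      rcases Nat.eq_zero_or_pos m with h2 | h2
      · rw [h2]; exact h0
      · have h3 := t_le (n + 1)
        have h4 : m = 1 := by omega
        have h5 : t (n + 1) = 2 := by omega
        have h6 : t n = 1 := by
          rcases Nat.mod_two_eq_zero_or_one n with h7 | h7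
          · rw [t_odd (by omega : (n + 1) % 2 = 1)] at h5; omega
          · exact t_odd h7
        rw [h4, ← h6]
        exact h1

end Pool.Agent.Q157.FC
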